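import Mathlib

set_option autoImplicit false

namespace Pool.Agent.Results.MP_256cd6_an.NotDense

open Filter Topology

/-- The hom Markov tree-shift of `M` on the `d`-tree. Nodes are the finite words over `Fin d`, the
root is the empty word and the children of `g` are the words `g ++ [i]`. -/
def TreeShift (d k : ℕ) (M : Matrix (Fin k) (Fin k) ℕ) : Set (List (Fin d) → Fin k) :=
  {t | ∀ (g : List (Fin d)) (i : Fin d), M (t g) (t (g ++ [i])) = 1}

/-- `Ball d n` is the set of words of length at most `n`. -/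
def Ball (d n : ℕ) : Set (List (Fin d)) := {g | g.length ≤ n}

/-- The restriction of a labelling `t` of the whole tree to the words of length at most `n`. -/
def restr {d k : ℕ} (n : ℕ) (t : List (Fin d) → Fin k) : Ball d n → Fin k := fun g => t g.1

/-- The number of distinct restrictions of members of the tree-shift to the words of length at
most `n`. -/
noncomputable def patternCount (d k : ℕ) (M : Matrix (Fin k) (Fin k) ℕ) (n : ℕ) : ℕ :=
  Set.ncard ((fun t : List (Fin d) → Fin k => restr n t) '' TreeShift d k M)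

/-- `h` is the entropy of the hom Markov tree-shift of `M`. -/
def HasEntropy (d k : ℕ) (M : Matrix (Fin k) (Fin k) ℕ) (h : ℝ) : Prop :=
  Tendsto (fun n : ℕ => Real.log (patternCount d k M n) / ((Ball d n).ncard : ℝ)) atTop (𝓝 h)

/-- All entries of `M` are `0` or `1`. -/
def IsBinary {k : ℕ} (M : Matrix (Fin k) (Fin k) ℕ) : Prop := ∀ i j, M i j = 0 ∨ M i j = 1

/-- `M` is irreducible: for all `i, j` some power `M ^ m`, `m ≥ 1`, has a positive `(i, j)` entry. -/
def IsIrr {k : ℕ} (M : Matrix (Fin k) (Fin k) ℕ) : Prop := ∀ i j, ∃ m : ℕ, 1 ≤ m ∧ 0 < (M ^ m) i j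

/-- The set of all entropies of nonempty hom Markov tree-shifts on the `d`-tree. -/
def entropySet (d : ℕ) : Set ℝ :=
  {h | ∃ (k : ℕ) (M : Matrix (Fin k) (Fin k) ℕ), IsBinary M ∧ (TreeShift d k M).Nonempty ∧
    HasEntropy d k M h}

/-- The set of all entropies of nonempty hom Markov tree-shifts of irreducible matrices. -/
def entropySetIrr (d : ℕ) : Set ℝ :=
  {h | ∃ (k : ℕ) (M : Matrix (Fin k) (Fin k) ℕ), IsBinary M ∧ IsIrr M ∧
    (TreeShift d k M).Nonempty ∧ HasEntropy d k M h}

/-- The interval `I_d`. -/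
noncomputable def I (d : ℕ) : Set ℝ :=
  Set.Ioo (((d : ℝ) - 1) / d * Real.log 2) (((d : ℝ) - 1) * Real.log 2)

/-- left end of the gap -/
noncomputable def gapLeft (d : ℕ) : ℝ :=
  if d = 2 then Real.log (11767 / 3) / 16
  else ((d : ℝ) - 1) / d * (Real.log 2 + Real.log (5 / 3) / d)

/-- right end of the gap -/
noncomputable def gapRight (d : ℕ) : ℝ := ((d : ℝ) ^ 2 - 1) / (d : ℝ) ^ 2 * Real.log 2

/-! ### Patterns with a given root label -/

variable {d k : ℕ} {M : Matrix (Fin k) (Fin k) ℕ}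

/-- restrictions of members of the tree-shift with root label `s` -/
def Pat (d : ℕ) {k : ℕ} (M : Matrix (Fin k) (Fin k) ℕ) (s : Fin k) (n : ℕ) :
    Set (Ball d n → Fin k) :=
  {x | ∃ t ∈ TreeShift d k M, t [] = s ∧ x = restr n t}

/-- number of patterns with root label `s` -/
noncomputable def R (d : ℕ) {k : ℕ} (M : Matrix (Fin k) (Fin k) ℕ) (s : Fin k) (n : ℕ) : ℕ :=
  (Pat d M s n).ncard

/-- gluing -/
def glue {d k n : ℕ} (s : Fin k) (y : Fin d → (Ball d n → Fin k)) : Ball d (n + 1) → Fin k :=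
  fun g => match g with
    | ⟨[], _⟩ => s
    | ⟨i :: g', h⟩ => y i ⟨g', by simpa [Ball] using h⟩

lemma glue_inj {n : ℕ} (s : Fin k) :
    Function.Injective (glue (d := d) (n := n) s) := by
  intro y y' h
  funext i g
  have hg : (i :: g.1) ∈ Ball d (n + 1) := by
    have h0 := g.2
    simp only [Ball, Set.mem_ofPred_eq, List.length_cons] at h0 ⊢
    omega
  exact congrFun h ⟨i :: g.1, hg⟩

/-- possible patterns below a root labelled `s` -/
def U (d : ℕ) {k : ℕ} (M : Matrix (Fin k) (Fin k) ℕ) (s : Fin k) (n : ℕ) :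
    Set (Ball d n → Fin k) :=
  {y | ∃ j, M s j = 1 ∧ y ∈ Pat d M j n}

lemma Pat_succ (s : Fin k) (n : ℕ) :
    Pat d M s (n + 1) = glue s '' (Set.pi Set.univ (fun _ : Fin d => U d M s n)) := by
  ext x
  constructor
  · rintro ⟨t, ht, hs, rfl⟩
    refine ⟨fun i => restr n (fun g => t (i :: g)), ?_, ?_⟩
    · intro i _
      refine ⟨t [i], ?_, fun g => t (i :: g), ?_, rfl, rfl⟩
      · have := ht [] i
        rw [hs] at this
        simpa using this
      · intro g j
        have := ht (i :: g) j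
        simpa using this
    · funext g
      obtain ⟨g, hg⟩ := g
      cases g with
      | nil => exact hs.symm
      | cons i g => rfl
  · rintro ⟨y, hy, rfl⟩
    have hy' : ∀ i, ∃ j, M s j = 1 ∧ ∃ t ∈ TreeShift d k M, t [] = j ∧
        y i = restr n t := fun i => hy i (Set.mem_univ i)
    choose j hj t ht hroot heq using hy'
    refine ⟨fun g => match g with
      | [] => s
      | i :: g' => t i g', ?_, rfl, ?_⟩
    · intro g i
      cases g with
      | nil =>
        show M s (t i []) = 1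
        rw [hroot]; exact hj i
      | cons i' g =>
        exact ht i' g i
    · funext g
      obtain ⟨g, hg⟩ := g
      cases g with
      | nil => rfl
      | cons i g => simp only [glue, heq]; rfl

lemma Ball_finite (d n : ℕ) : (Ball d n).Finite := by
  exact List.finite_length_le (Fin d) n

instance (d n : ℕ) : Finite (Ball d n) := (Ball_finite d n).to_subtype

lemma U_ncard (hM : IsBinary M) (s : Fin k) (n : ℕ) :
    (U d M s n).ncard = ∑ j, M s j * R d M j n := by
  classical
  have hfin : ∀ j, (Pat d M j n).Finite := fun j => Set.toFinite _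
  have e : (U d M s n) = ((Finset.univ.filter (fun j => M s j = 1)).biUnion
      (fun j => (hfin j).toFinset) : Finset (Ball d n → Fin k)) := by
    ext y
    simp [U]
  rw [e, Set.ncard_coe_finset, Finset.card_biUnion]
  · rw [Finset.sum_filter]
    refine Finset.sum_congr rfl fun j _ => ?_
    rcases hM s j with h | h
    · simp [h]
    · simp only [h, if_true, one_mul, R]
      rw [Set.ncard_eq_toFinset_card _ (hfin j)]
  · intro j _ j' _ hne
    rw [Function.onFun, Finset.disjoint_left]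
    intro y hy hy'
    simp only [Set.Finite.mem_toFinset] at hy hy'
    obtain ⟨t, _, h1, h2⟩ := hy
    obtain ⟨t', _, h1', h2'⟩ := hy'
    apply hne
    have := congrFun (h2.symm.trans h2') ⟨[], by simp [Ball]⟩
    simp only [restr] at this
    rw [← h1, ← h1', this]

lemma R_succ (hM : IsBinary M) (s : Fin k) (n : ℕ) :
    R d M s (n + 1) = (∑ j, M s j * R d M j n) ^ d := by
  rw [R, Pat_succ, Set.ncard_image_of_injective _ (glue_inj s), ← U_ncard hM,
    ← Nat.card_coe_set_eq, Nat.card_congr (Equiv.Set.univPi _)]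
  simp [Nat.card_fun, Nat.card_coe_set_eq]

/-- `s` is the root label of some member of the tree-shift -/
def good (d : ℕ) {k : ℕ} (M : Matrix (Fin k) (Fin k) ℕ) (s : Fin k) : Prop :=
  ∃ t ∈ TreeShift d k M, t [] = s

lemma R_pos_iff (s : Fin k) (n : ℕ) : 0 < R d M s n ↔ good d M s := by
  rw [R, Set.ncard_pos]
  constructor
  · rintro ⟨x, t, ht, hs, _⟩; exact ⟨t, ht, hs⟩
  · rintro ⟨t, ht, hs⟩; exact ⟨_, t, ht, hs, rfl⟩

lemma R_zero_le (s : Fin k) : R d M s 0 ≤ 1 := by
  rw [R, Set.ncard_le_one]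
  intro a ha b hb
  obtain ⟨t, _, h1, rfl⟩ := ha
  obtain ⟨t', _, h1', rfl⟩ := hb
  funext g
  obtain ⟨g, hg⟩ := g
  have : g = [] := by simpa [Ball] using hg
  subst this
  simp [restr, h1, h1']

lemma count_ge (s : Fin k) (n : ℕ) : R d M s n ≤ patternCount d k M n := by
  rw [R, patternCount]
  apply Set.ncard_le_ncard _ (Set.toFinite _)
  rintro x ⟨t, ht, _, rfl⟩
  exact ⟨t, ht, rfl⟩

lemma count_le (n : ℕ) : patternCount d k M n ≤ ∑ s, R d M s n := by
  classical
  have hfin : ∀ j, (Pat d M j n).Finite := fun j => Set.toFinite _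
  have e : ((fun t : List (Fin d) → Fin k => restr n t) '' TreeShift d k M)
      ⊆ (Finset.univ.biUnion (fun j => (hfin j).toFinset) : Finset (Ball d n → Fin k)) := by
    rintro x ⟨t, ht, rfl⟩
    simp only [Finset.coe_biUnion, Finset.coe_univ, Set.mem_univ, Set.iUnion_true,
      Set.Finite.coe_toFinset, Set.mem_iUnion]
    exact ⟨t [], t, ht, rfl, rfl⟩
  calc patternCount d k M n ≤ _ := Set.ncard_le_ncard e (Set.toFinite _)
    _ = _ := Set.ncard_coe_finset _
    _ ≤ _ := Finset.card_biUnion_le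
    _ = _ := by
      refine Finset.sum_congr rfl fun j _ => ?_
      rw [R, Set.ncard_eq_toFinset_card _ (hfin j)]

lemma Ball_ncard (d n : ℕ) : (Ball d n).ncard = ∑ i ∈ Finset.range (n + 1), d ^ i := by
  induction n with
  | zero =>
    have : Ball d 0 = {[]} := by
      ext g; simp [Ball]
    simp [this]
  | succ n ih =>
    have e : Ball d (n + 1) = Ball d n ∪ {g : List (Fin d) | g.length = n + 1} := by
      ext g; simp only [Ball, Set.mem_ofPred_eq, Set.mem_union]; omega
    have hfin : {g : List (Fin d) | g.length = n + 1}.Finite := List.finite_length_eq (Fin d) (n + 1)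
    rw [e, Set.ncard_union_eq _ (Ball_finite d n) hfin, ih, Finset.sum_range_succ _ (n + 1)]
    · congr 1
      have : Nat.card {g : List (Fin d) | g.length = n + 1} = Nat.card (List.Vector (Fin d) (n + 1)) := rfl
      rw [← Nat.card_coe_set_eq, this, Nat.card_eq_fintype_card, card_vector, Fintype.card_fin]
    · rw [Set.disjoint_left]
      intro g hg hg'
      simp only [Ball, Set.mem_ofPred_eq] at hg hg'
      omega

/-! ### Paths -/

/-- there is a path of length `m` from `r` to `s` -/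
def Path {k : ℕ} (M : Matrix (Fin k) (Fin k) ℕ) : ℕ → Fin k → Fin k → Prop
  | 0, r, s => r = s
  | m + 1, r, s => ∃ j, M r j = 1 ∧ Path M m j s

/-- `s` is the end of arbitrarily long paths -/
def Pers {k : ℕ} (M : Matrix (Fin k) (Fin k) ℕ) (s : Fin k) : Prop := ∀ m, ∃ r, Path M m r s

lemma Path_snoc {m : ℕ} {r s j : Fin k} (h : Path M m r s) (hj : M s j = 1) :
    Path M (m + 1) r j := by
  induction m generalizing r with
  | zero =>
    have h' : r = s := h
    subst h'
    exact ⟨j, hj, rfl⟩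
  | succ m ih =>
    obtain ⟨q, hq, hp⟩ := h
    exact ⟨q, hq, ih hp⟩

lemma Path_drop {a b : ℕ} {r s : Fin k} (h : Path M (a + b) r s) : ∃ r', Path M b r' s := by
  induction a generalizing r with
  | zero => exact ⟨r, by simpa using h⟩
  | succ a ih =>
    have h' : Path M ((a + b) + 1) r s := by
      have : a + 1 + b = (a + b) + 1 := by omega
      rwa [this] at h
    obtain ⟨q, _, hp⟩ := h'
    exact ih hp

lemma Pers_succ {s j : Fin k} (h : Pers M s) (hj : M s j = 1) : Pers M j := by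
  intro m
  cases m with
  | zero => exact ⟨j, rfl⟩
  | succ m =>
    obtain ⟨r, hr⟩ := h m
    exact ⟨r, Path_snoc hr hj⟩

lemma exists_m0 (M : Matrix (Fin k) (Fin k) ℕ) :
    ∃ m0, ∀ s, (∃ r, Path M m0 r s) → Pers M s := by
  classical
  have h1 : ∀ s : Fin k, ∃ m, ∀ m', m ≤ m' → (∃ r, Path M m' r s) → Pers M s := by
    intro s
    by_cases hs : Pers M s
    · exact ⟨0, fun _ _ _ => hs⟩
    · have : ∃ m, ¬ ∃ r, Path M m r s := by
        by_contra hcon
        push Not at hcon
        exact hs hcon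
      obtain ⟨m, hm⟩ := this
      refine ⟨m, fun m' hm' ⟨r, hr⟩ => absurd ?_ hm⟩
      have e : m' = (m' - m) + m := by omega
      rw [e] at hr
      exact Path_drop hr
  choose f hf using h1
  refine ⟨Finset.univ.sup f, fun s hs => hf s _ (Finset.le_sup (Finset.mem_univ s)) hs⟩

lemma term_le (s j : Fin k) (n : ℕ) (h : M s j = 1) :
    R d M j n ≤ ∑ j, M s j * R d M j n := by
  calc R d M j n = M s j * R d M j n := by rw [h, one_mul]
    _ ≤ _ := Finset.single_le_sum (f := fun j => M s j * R d M j n) (fun _ _ => Nat.zero_le _)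
      (Finset.mem_univ j)

lemma low (hM : IsBinary M) {m : ℕ} (n : ℕ) {r s : Fin k} (h : Path M m r s) :
    (R d M s n) ^ (d ^ m) ≤ R d M r (n + m) := by
  induction m generalizing r with
  | zero =>
    have h' : r = s := h
    subst h'
    simp
  | succ m ih =>
    obtain ⟨j, hj, hp⟩ := h
    rw [← add_assoc, R_succ hM]
    calc R d M s n ^ d ^ (m + 1) = (R d M s n ^ d ^ m) ^ d := by rw [← pow_mul, pow_succ]
      _ ≤ (R d M j (n + m)) ^ d := Nat.pow_le_pow_left (ih hp) d
      _ ≤ _ := Nat.pow_le_pow_left (term_le r j (n + m) hj) d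

/-- exponent of `k` in the upper bound -/
def ex (d : ℕ) : ℕ → ℕ
  | 0 => 0
  | m + 1 => d * (1 + ex d m)

lemma up (hM : IsBinary M) (B m0 n : ℕ) (hB : ∀ s, (∃ r, Path M m0 r s) → R d M s n ≤ B) :
    ∀ m ≤ m0, ∀ r, (∃ q, Path M (m0 - m) q r) →
      R d M r (n + m) ≤ k ^ (ex d m) * B ^ (d ^ m) := by
  intro m
  induction m with
  | zero =>
    intro _ r hr
    simpa [ex] using hB r (by simpa using hr)
  | succ m ih =>
    intro hm r hr
    obtain ⟨q, hq⟩ := hr
    rw [← add_assoc, R_succ hM]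
    have h1 : ∑ j, M r j * R d M j (n + m) ≤ k * (k ^ (ex d m) * B ^ (d ^ m)) := by
      calc ∑ j, M r j * R d M j (n + m) ≤ ∑ _j : Fin k, k ^ (ex d m) * B ^ (d ^ m) := by
            refine Finset.sum_le_sum fun j _ => ?_
            rcases hM r j with h | h
            · simp [h]
            · rw [h, one_mul]
              apply ih (by omega) j
              refine ⟨q, ?_⟩
              have e : m0 - m = (m0 - (m + 1)) + 1 := by omega
              rw [e]
              exact Path_snoc hq h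
        _ = _ := by simp
    calc (∑ j, M r j * R d M j (n + m)) ^ d ≤ (k * (k ^ (ex d m) * B ^ (d ^ m))) ^ d :=
          Nat.pow_le_pow_left h1 d
      _ = _ := by
        rw [ex]
        ring

/-! ### The two extremal sequences -/

/-- the pair of sequences `a, b` with `a (n+1) = (a n + b n)^d`, `b (n+1) = (a n)^d` -/
def ab (d : ℕ) : ℕ → ℕ × ℕ
  | 0 => (1, 1)
  | n + 1 => (((ab d n).1 + (ab d n).2) ^ d, (ab d n).1 ^ d)

lemma ab_le (d n : ℕ) : (ab d n).2 ≤ (ab d n).1 := by
  cases n with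
  | zero => simp [ab]
  | succ n => exact Nat.pow_le_pow_left (by omega) d

/-- number of good successors -/
noncomputable def deg (d : ℕ) {k : ℕ} (M : Matrix (Fin k) (Fin k) ℕ) (s : Fin k) : ℕ :=
  ∑ j, M s j * R d M j 0

open Classical in
/-- the good successors -/
noncomputable def succs (d : ℕ) {k : ℕ} (M : Matrix (Fin k) (Fin k) ℕ) (s : Fin k) :
    Finset (Fin k) := Finset.univ.filter (fun j => M s j = 1 ∧ 0 < R d M j 0)

lemma mem_succs {s j : Fin k} : j ∈ succs d M s ↔ M s j = 1 ∧ 0 < R d M j 0 := by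
  classical
  simp [succs]

lemma sum_succs (hM : IsBinary M) (s : Fin k) (n : ℕ) :
    ∑ j, M s j * R d M j n = ∑ j ∈ succs d M s, R d M j n := by
  classical
  rw [succs, Finset.sum_filter]
  refine Finset.sum_congr rfl fun j _ => ?_
  rcases hM s j with h | h
  · simp [h]
  · by_cases h0 : 0 < R d M j 0
    · simp [h, h0]
    · have : ¬ 0 < R d M j n := by rw [R_pos_iff]; rwa [R_pos_iff] at h0
      have h2 : R d M j n = 0 := by omega
      simp [h2]

lemma deg_eq (hM : IsBinary M) (s : Fin k) : deg d M s = (succs d M s).card := by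
  rw [deg, sum_succs hM, Finset.card_eq_sum_ones]
  refine Finset.sum_congr rfl fun j hj => ?_
  have h1 := (mem_succs.1 hj).2
  have h2 := R_zero_le (d := d) (M := M) j
  omega

lemma bound_case (hM : IsBinary M) (h1 : ∀ s, Pers M s → deg d M s ≤ 2)
    (h2 : ∀ s, Pers M s → ∀ u v, u ≠ v → M s u = 1 → M s v = 1 →
      ¬ (2 ≤ deg d M u ∧ 2 ≤ deg d M v)) (n : ℕ) :
    ∀ s, Pers M s → R d M s n ≤ (ab d n).1 ∧ (deg d M s ≤ 1 → R d M s n ≤ (ab d n).2) := by
  induction n with
  | zero =>
    intro s _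
    have := R_zero_le (d := d) (M := M) s
    simp [ab, this]
  | succ n ih =>
    intro s hs
    have hab := ab_le d n
    have hdeg := h1 s hs
    rw [deg_eq hM] at hdeg
    have key : (∑ j, M s j * R d M j n ≤ (ab d n).1 + (ab d n).2) ∧
        (deg d M s ≤ 1 → ∑ j, M s j * R d M j n ≤ (ab d n).1) := by
      rw [sum_succs hM, deg_eq hM]
      have hc : (succs d M s).card = 0 ∨ (succs d M s).card = 1 ∨ (succs d M s).card = 2 := by
        omega
      rcases hc with hc | hc | hc
      · rw [Finset.card_eq_zero] at hc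
        rw [hc]; simp
      · obtain ⟨u, hu⟩ := Finset.card_eq_one.1 hc
        have hmu : u ∈ succs d M s := by rw [hu]; simp
        have h3 := (ih u (Pers_succ hs (mem_succs.1 hmu).1)).1
        rw [hu]
        simp only [Finset.sum_singleton, Finset.card_singleton, le_refl, forall_const]
        omega
      · obtain ⟨u, v, huv, he⟩ := Finset.card_eq_two.1 hc
        have hmu : u ∈ succs d M s := by rw [he]; simp
        have hmv : v ∈ succs d M s := by rw [he]; simp
        have h3 := ih u (Pers_succ hs (mem_succs.1 hmu).1)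
        have h4 := ih v (Pers_succ hs (mem_succs.1 hmv).1)
        have h5 := h2 s hs u v huv (mem_succs.1 hmu).1 (mem_succs.1 hmv).1
        refine ⟨?_, fun h => by omega⟩
        rw [he, Finset.sum_pair huv]
        by_cases h6 : deg d M u ≤ 1
        · have := h3.2 h6
          omega
        · have h7 : deg d M v ≤ 1 := by
            by_contra h8
            exact h5 ⟨by omega, by omega⟩
          have := h4.2 h7
          omega
    rw [R_succ hM]
    refine ⟨Nat.pow_le_pow_left key.1 d, fun h => Nat.pow_le_pow_left (key.2 h) d⟩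

lemma two_terms (s u v : Fin k) (huv : u ≠ v) (n : ℕ) (hu : M s u = 1) (hv : M s v = 1) :
    R d M u n + R d M v n ≤ ∑ j, M s j * R d M j n := by
  calc R d M u n + R d M v n = ∑ j ∈ ({u, v} : Finset (Fin k)), M s j * R d M j n := by
        rw [Finset.sum_pair huv, hu, hv, one_mul, one_mul]
    _ ≤ _ := Finset.sum_le_sum_of_subset (Finset.subset_univ _)

/-! ### Limits -/

lemma Ball_real (d n : ℕ) : ((d : ℝ) - 1) * ((Ball d n).ncard : ℝ) = (d : ℝ) ^ (n + 1) - 1 := by
  rw [Ball_ncard]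
  push_cast
  exact mul_geom_sum _ _

lemma Ball_pos (d n : ℕ) : 0 < ((Ball d n).ncard : ℝ) := by
  have : 0 < (Ball d n).ncard := by
    rw [Set.ncard_pos (Ball_finite d n)]
    exact ⟨[], by simp [Ball]⟩
  exact_mod_cast this

lemma lower_limit (hd : 2 ≤ d) (B m0 : ℕ) (hB : 1 ≤ B)
    (hle : ∀ n, B ^ (d ^ n) ≤ patternCount d k M (n + m0)) {h : ℝ} (hh : HasEntropy d k M h) :
    ((d : ℝ) - 1) / (d : ℝ) ^ (m0 + 1) * Real.log B ≤ h := by
  have hd' : (2 : ℝ) ≤ d := by exact_mod_cast hd
  refine ge_of_tendsto (hh.comp (tendsto_add_atTop_nat m0)) (Eventually.of_forall fun n => ?_)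
  simp only [Function.comp]
  rw [le_div_iff₀ (Ball_pos d _)]
  have hB' : (1 : ℝ) ≤ B := by exact_mod_cast hB
  have hlog : 0 ≤ Real.log B := Real.log_nonneg hB'
  have h1 : (d : ℝ) ^ n * Real.log B ≤ Real.log (patternCount d k M (n + m0)) := by
    have h2 : ((B : ℝ)) ^ (d ^ n) ≤ patternCount d k M (n + m0) := by exact_mod_cast hle n
    have h3 := Real.log_le_log (by positivity) h2
    rw [Real.log_pow] at h3
    push_cast at h3
    exact h3
  refine le_trans ?_ h1
  have h4 := Ball_real d (n + m0)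
  have h5 : ((d : ℝ) - 1) * ((Ball d (n + m0)).ncard : ℝ) ≤ (d : ℝ) ^ n * (d : ℝ) ^ (m0 + 1) := by
    rw [h4, ← pow_add, ← add_assoc]; linarith
  have h6 : ((d : ℝ) - 1) / (d : ℝ) ^ (m0 + 1) * ((Ball d (n + m0)).ncard : ℝ) ≤ (d : ℝ) ^ n := by
    rw [div_mul_eq_mul_div, div_le_iff₀ (by positivity)]
    exact h5
  calc ((d : ℝ) - 1) / (d : ℝ) ^ (m0 + 1) * Real.log B * ((Ball d (n + m0)).ncard : ℝ)
      = (((d : ℝ) - 1) / (d : ℝ) ^ (m0 + 1) * ((Ball d (n + m0)).ncard : ℝ)) * Real.log B := by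
        ring
    _ ≤ _ := mul_le_mul_of_nonneg_right h6 hlog

lemma upper_limit (hd : 2 ≤ d) (C l : ℝ) (n0 m0 : ℕ)
    (hle : ∀ n, n0 ≤ n → Real.log (patternCount d k M (n + m0)) ≤ C + (d : ℝ) ^ (n + m0) * l)
    {h : ℝ} (hh : HasEntropy d k M h) :
    h ≤ ((d : ℝ) - 1) / d * l := by
  have hd' : (2 : ℝ) ≤ d := by exact_mod_cast hd
  set x : ℕ → ℝ := fun n => (1 / (d : ℝ)) ^ n with hx
  have hx0 : Tendsto x atTop (𝓝 0) := by
    apply tendsto_pow_atTop_nhds_zero_of_lt_one (by positivity)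
    rw [div_lt_one (by linarith)]; linarith
  have hlim : Tendsto (fun n => ((d : ℝ) - 1) * (C * x n + l) / (d - x n)) atTop
      (𝓝 (((d : ℝ) - 1) * (C * 0 + l) / (d - 0))) := by
    apply Tendsto.div
    · exact Tendsto.const_mul _ ((hx0.const_mul C).add_const l)
    · exact hx0.const_sub _
    · simp only [sub_zero]; linarith
  have hval : ((d : ℝ) - 1) * (C * 0 + l) / (d - 0) = ((d : ℝ) - 1) / d * l := by
    rw [mul_zero, zero_add, sub_zero]; ring
  rw [hval] at hlim
  refine le_of_tendsto_of_tendsto hh hlim ?_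
  filter_upwards [eventually_ge_atTop (n0 + m0)] with N hN
  have hN' : N = (N - m0) + m0 := by omega
  have h1 := hle (N - m0) (by omega)
  rw [← hN'] at h1
  have h2 := Ball_real d N
  have hb := Ball_pos d N
  have hxN : x N * (d : ℝ) ^ N = 1 := by
    rw [hx]; simp only; rw [← mul_pow, one_div, inv_mul_cancel₀ (by linarith), one_pow]
  have hxpos : 0 < x N := by rw [hx]; positivity
  have hxle : x N ≤ 1 := by
    rw [hx]; simp only
    apply pow_le_one₀ (by positivity)
    rw [div_le_one (by linarith)]; linarith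
  have hpow : 0 < (d : ℝ) ^ N := by positivity
  rw [div_le_div_iff₀ hb (by linarith)]
  have h3 : ((d : ℝ) - x N) * (d : ℝ) ^ N = ((d : ℝ) - 1) * ((Ball d N).ncard : ℝ) := by
    rw [h2, sub_mul, hxN, pow_succ]; ring
  have h4 : Real.log (patternCount d k M N) * ((d : ℝ) - x N)
      ≤ (C + (d : ℝ) ^ N * l) * ((d : ℝ) - x N) :=
    mul_le_mul_of_nonneg_right h1 (by linarith)
  refine le_trans h4 (le_of_eq ?_)
  have h5 : (C + (d : ℝ) ^ N * l) = (d : ℝ) ^ N * (C * x N + l) := by
    have : (d : ℝ) ^ N * (C * x N + l) = C * (x N * (d : ℝ) ^ N) + (d : ℝ) ^ N * l := by ring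
    rw [this, hxN]; ring
  rw [h5]
  calc (d : ℝ) ^ N * (C * x N + l) * ((d : ℝ) - x N)
      = (C * x N + l) * (((d : ℝ) - x N) * (d : ℝ) ^ N) := by ring
    _ = _ := by rw [h3]; ring

lemma seq_bound (K l : ℝ) (n0 : ℕ) (hK : 0 < K) (hK1 : (K + K ^ d) ^ d ≤ K)
    (ha : ((ab d n0).1 : ℝ) ≤ K * Real.exp (l * d ^ n0))
    (hb : ((ab d n0).2 : ℝ) ≤ K ^ d * Real.exp (l * d ^ n0)) (n : ℕ) (hn : n0 ≤ n) :
    ((ab d n).1 : ℝ) ≤ K * Real.exp (l * d ^ n) ∧
      ((ab d n).2 : ℝ) ≤ K ^ d * Real.exp (l * d ^ n) := by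
  induction n, hn using Nat.le_induction with
  | base => exact ⟨ha, hb⟩
  | succ n _ ih =>
    obtain ⟨h1, h2⟩ := ih
    have he : Real.exp (l * d ^ (n + 1)) = Real.exp (l * d ^ n) ^ d := by
      rw [← Real.exp_nat_mul]; congr 1; ring
    have hab : (ab d (n + 1)) = (((ab d n).1 + (ab d n).2) ^ d, (ab d n).1 ^ d) := rfl
    rw [hab, he]
    push_cast
    constructor
    · calc (((ab d n).1 : ℝ) + (ab d n).2) ^ d
          ≤ ((K + K ^ d) * Real.exp (l * d ^ n)) ^ d :=
            pow_le_pow_left₀ (by positivity) (by linarith) d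
        _ = (K + K ^ d) ^ d * Real.exp (l * d ^ n) ^ d := by rw [mul_pow]
        _ ≤ _ := mul_le_mul_of_nonneg_right hK1 (by positivity)
    · calc ((ab d n).1 : ℝ) ^ d ≤ (K * Real.exp (l * d ^ n)) ^ d :=
            pow_le_pow_left₀ (by positivity) h1 d
        _ = _ := by rw [mul_pow]

/-- the dichotomy, given a bound of the extremal sequence -/
lemma dichotomy (hd : 2 ≤ d) (hM : IsBinary M) {h : ℝ} (hh : HasEntropy d k M h)
    (hk : (TreeShift d k M).Nonempty)
    (K l : ℝ) (n0 : ℕ) (hK : 0 < K) (hK1 : (K + K ^ d) ^ d ≤ K)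
    (ha : ((ab d n0).1 : ℝ) ≤ K * Real.exp (l * d ^ n0))
    (hb : ((ab d n0).2 : ℝ) ≤ K ^ d * Real.exp (l * d ^ n0)) :
    h ≤ ((d : ℝ) - 1) / d * l ∨ gapRight d ≤ h := by
  classical
  have hd' : (2 : ℝ) ≤ d := by exact_mod_cast hd
  by_cases hA : ∃ s, Pers M s ∧ 3 ≤ deg d M s
  · right
    obtain ⟨s, hs, h3⟩ := hA
    have hR : 3 ^ d ≤ R d M s 1 := by
      rw [show (1 : ℕ) = 0 + 1 from rfl, R_succ hM]
      exact Nat.pow_le_pow_left h3 d
    have hle : ∀ n, (3 ^ d) ^ (d ^ n) ≤ patternCount d k M (n + 1) := by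
      intro n
      obtain ⟨r, hr⟩ := hs n
      calc (3 ^ d) ^ (d ^ n) ≤ (R d M s 1) ^ (d ^ n) := Nat.pow_le_pow_left hR _
        _ ≤ R d M r (1 + n) := low hM 1 hr
        _ ≤ patternCount d k M (1 + n) := count_ge r _
        _ = _ := by rw [add_comm]
    have h4 := lower_limit hd (3 ^ d) 1 (Nat.one_le_pow _ _ (by norm_num)) hle hh
    refine le_trans ?_ h4
    rw [gapRight]
    push_cast
    rw [Real.log_pow]
    have h5 : 3 * Real.log 2 ≤ 2 * Real.log 3 := by
      have : Real.log ((2 : ℝ) ^ 3) ≤ Real.log ((3 : ℝ) ^ 2) :=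
        Real.log_le_log (by norm_num) (by norm_num)
      rw [Real.log_pow, Real.log_pow] at this
      push_cast at this
      linarith
    have h2pos : 0 < Real.log 2 := Real.log_pos (by norm_num)
    have h6 : ((d : ℝ) + 1) * Real.log 2 ≤ d * Real.log 3 := by
      nlinarith
    have e1 : ((d : ℝ) ^ 2 - 1) / (d : ℝ) ^ 2 * Real.log 2
        = ((d : ℝ) - 1) / (d : ℝ) ^ 2 * (((d : ℝ) + 1) * Real.log 2) := by
      field_simp; ring
    rw [e1]
    exact mul_le_mul_of_nonneg_left h6 (div_nonneg (by linarith) (by positivity))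
  by_cases hB : ∃ s, Pers M s ∧ ∃ u v, u ≠ v ∧ M s u = 1 ∧ M s v = 1 ∧
      2 ≤ deg d M u ∧ 2 ≤ deg d M v
  · right
    obtain ⟨s, hs, u, v, huv, hu, hv, hdu, hdv⟩ := hB
    have hRu : 2 ^ d ≤ R d M u 1 := by
      rw [show (1 : ℕ) = 0 + 1 from rfl, R_succ hM]
      exact Nat.pow_le_pow_left hdu d
    have hRv : 2 ^ d ≤ R d M v 1 := by
      rw [show (1 : ℕ) = 0 + 1 from rfl, R_succ hM]
      exact Nat.pow_le_pow_left hdv d
    have hR : 2 ^ ((d + 1) * d) ≤ R d M s 2 := by
      rw [show (2 : ℕ) = 1 + 1 from rfl, R_succ hM]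
      have h0 := two_terms (d := d) s u v huv 1 hu hv
      calc (1 + 1) ^ ((d + 1) * d) = (2 ^ d + 2 ^ d) ^ d := by
            rw [pow_mul, pow_succ]; congr 1; ring
        _ ≤ _ := Nat.pow_le_pow_left (by omega) d
    have hle : ∀ n, (2 ^ ((d + 1) * d)) ^ (d ^ n) ≤ patternCount d k M (n + 2) := by
      intro n
      obtain ⟨r, hr⟩ := hs n
      calc (2 ^ ((d + 1) * d)) ^ (d ^ n) ≤ (R d M s 2) ^ (d ^ n) := Nat.pow_le_pow_left hR _
        _ ≤ R d M r (2 + n) := low hM 2 hr
        _ ≤ patternCount d k M (2 + n) := count_ge r _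
        _ = _ := by rw [add_comm]
    have h4 := lower_limit hd (2 ^ ((d + 1) * d)) 2 Nat.one_le_two_pow hle hh
    refine le_trans (le_of_eq ?_) h4
    rw [gapRight]
    push_cast
    rw [Real.log_pow]
    push_cast
    field_simp
    ring
  · left
    push Not at hA hB
    obtain ⟨m0, hm0⟩ := exists_m0 M
    have hbound := bound_case (d := d) hM (fun s hs => by have := hA s hs; omega)
      (fun s hs u v huv h1 h2 h3 => by
        have := hB s hs u v huv h1 h2 h3.1
        omega)
    have hkpos : 0 < k := by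
      obtain ⟨t, _⟩ := hk
      exact Fin.pos (t [])
    have hup : ∀ n, patternCount d k M (n + m0)
        ≤ k * (k ^ (ex d m0) * (ab d n).1 ^ (d ^ m0)) := by
      intro n
      calc patternCount d k M (n + m0) ≤ ∑ s, R d M s (n + m0) := count_le _
        _ ≤ ∑ _s : Fin k, k ^ (ex d m0) * (ab d n).1 ^ (d ^ m0) := by
          refine Finset.sum_le_sum fun s _ => ?_
          exact up hM (ab d n).1 m0 n (fun s hs => (hbound n s (hm0 s hs)).1) m0 le_rfl s
            ⟨s, by simp [Path]⟩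
        _ = _ := by simp
    have hpc : ∀ n, 0 < patternCount d k M n := by
      intro n
      obtain ⟨t, ht⟩ := hk
      have := (R_pos_iff (d := d) (M := M) (t []) n).2 ⟨t, ht, rfl⟩
      exact lt_of_lt_of_le this (count_ge _ _)
    refine upper_limit hd (Real.log k + ex d m0 * Real.log k + d ^ m0 * Real.log K) l n0 m0 ?_ hh
    intro n hn
    have h1 := (seq_bound K l n0 hK hK1 ha hb n hn).1
    have h2 : (patternCount d k M (n + m0) : ℝ)
        ≤ k * (k ^ (ex d m0) * (K * Real.exp (l * d ^ n)) ^ (d ^ m0)) := by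
      have h3 : (patternCount d k M (n + m0) : ℝ)
          ≤ k * (k ^ (ex d m0) * ((ab d n).1 : ℝ) ^ (d ^ m0)) := by exact_mod_cast hup n
      refine le_trans h3 ?_
      have h4 : ((ab d n).1 : ℝ) ^ (d ^ m0) ≤ (K * Real.exp (l * d ^ n)) ^ (d ^ m0) :=
        pow_le_pow_left₀ (by positivity) h1 _
      have hk0 : (0 : ℝ) ≤ k := by positivity
      exact mul_le_mul_of_nonneg_left (mul_le_mul_of_nonneg_left h4 (by positivity)) hk0
    have hk0 : (0 : ℝ) < k := by exact_mod_cast hkpos
    have h5 := Real.log_le_log (by exact_mod_cast hpc (n + m0)) h2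
    rw [Real.log_mul hk0.ne' (by positivity), Real.log_mul (by positivity) (by positivity),
      Real.log_pow, Real.log_pow, Real.log_mul hK.ne' (Real.exp_ne_zero _), Real.log_exp] at h5
    push_cast at h5
    refine le_trans h5 (le_of_eq ?_)
    rw [pow_add]
    ring

lemma num3 (e : ℕ) : (3 / 5 : ℝ) ^ (e + 2) * (1 + (3 / 5 : ℝ) ^ (e + 2)) ^ (e + 3) ≤ 1 := by
  induction e with
  | zero => norm_num
  | succ e ih =>
    set u : ℝ := (3 / 5 : ℝ) ^ (e + 2) with hu
    have hu0 : 0 < u := by rw [hu]; positivity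
    have hu1 : u ≤ 1 := by rw [hu]; exact pow_le_one₀ (by norm_num) (by norm_num)
    have e1 : (3 / 5 : ℝ) ^ (e + 1 + 2) = (3 / 5) * u := by rw [hu]; ring
    rw [e1]
    have h1 : (1 + 3 / 5 * u) ^ (e + 3) ≤ (1 + u) ^ (e + 3) :=
      pow_le_pow_left₀ (by positivity) (by linarith) _
    have h2 : u * (1 + 3 / 5 * u) ^ (e + 3) ≤ 1 :=
      le_trans (mul_le_mul_of_nonneg_left h1 hu0.le) ih
    calc 3 / 5 * u * (1 + 3 / 5 * u) ^ (e + 1 + 3)
        = (u * (1 + 3 / 5 * u) ^ (e + 3)) * (3 / 5 * (1 + 3 / 5 * u)) := by ring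
      _ ≤ 1 * 1 := mul_le_mul h2 (by linarith) (by positivity) (by norm_num)
      _ = 1 := by norm_num

lemma hK3 (d : ℕ) (hd : 3 ≤ d) : ((3 / 5 : ℝ) + (3 / 5) ^ d) ^ d ≤ 3 / 5 := by
  obtain ⟨e, rfl⟩ : ∃ e, d = e + 3 := ⟨d - 3, by omega⟩
  have h := num3 e
  have e1 : ((3 / 5 : ℝ) + (3 / 5) ^ (e + 3)) ^ (e + 3)
      = 3 / 5 * ((3 / 5 : ℝ) ^ (e + 2) * (1 + (3 / 5 : ℝ) ^ (e + 2)) ^ (e + 3)) := by
    have : ((3 / 5 : ℝ) + (3 / 5) ^ (e + 3)) = 3 / 5 * (1 + (3 / 5 : ℝ) ^ (e + 2)) := by ring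
    rw [this, mul_pow]; ring
  rw [e1]; linarith

lemma main (d : ℕ) (hd : 2 ≤ d) (h : ℝ) (hh : h ∈ entropySet d) :
    h ≤ gapLeft d ∨ gapRight d ≤ h := by
  obtain ⟨k, M, hM, hk, he⟩ := hh
  by_cases h2 : d = 2
  · subst h2
    have hexp : Real.exp (Real.log (11767 / 3) / 8 * ((2 : ℕ) : ℝ) ^ 3) = 11767 / 3 := by
      have : Real.log (11767 / 3) / 8 * ((2 : ℕ) : ℝ) ^ 3 = Real.log (11767 / 3) := by
        push_cast; ring
      rw [this, Real.exp_log (by norm_num)]
    have hab : ab 2 3 = (1681, 625) := by decide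
    have := dichotomy hd hM he hk (3 / 7) (Real.log (11767 / 3) / 8) 3 (by norm_num) (by norm_num)
      (by rw [hexp, hab]; norm_num) (by rw [hexp, hab]; norm_num)
    rcases this with h1 | h1
    · left
      rw [gapLeft, if_pos rfl]
      push_cast at h1
      linarith
    · right; exact h1
  · have hd3 : 3 ≤ d := by omega
    have hd' : (3 : ℝ) ≤ d := by exact_mod_cast hd3
    have hexp : Real.exp ((Real.log 2 + Real.log (5 / 3) / d) * (d : ℝ) ^ 1)
        = 2 ^ d * (5 / 3) := by
      have : (Real.log 2 + Real.log (5 / 3) / d) * (d : ℝ) ^ 1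
          = d * Real.log 2 + Real.log (5 / 3) := by
        field_simp
      rw [this, Real.exp_add, Real.exp_log (by norm_num), Real.exp_nat_mul,
        Real.exp_log (by norm_num)]
    have hab : ab d 1 = (2 ^ d, 1) := by simp [ab]
    have := dichotomy hd hM he hk (3 / 5) (Real.log 2 + Real.log (5 / 3) / d) 1 (by norm_num)
      (hK3 d hd3) (by rw [hexp, hab]; push_cast; linarith)
      (by
        rw [hexp, hab]
        push_cast
        have h1 : (1 : ℝ) ≤ (6 / 5) ^ d := one_le_pow₀ (by norm_num)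
        have h2 : (3 / 5 : ℝ) ^ d * (2 ^ d * (5 / 3)) = (6 / 5) ^ d * (5 / 3) := by
          rw [← mul_assoc, ← mul_pow]; norm_num
        rw [h2]; linarith)
    rcases this with h1 | h1
    · left
      rw [gapLeft, if_neg h2]
      exact h1
    · right; exact h1

lemma gap_lt (d : ℕ) (hd : 2 ≤ d) : gapLeft d < gapRight d := by
  rw [gapRight, gapLeft]
  split_ifs with h2
  · subst h2
    have : Real.log (11767 / 3) < Real.log ((2 : ℝ) ^ 12) :=
      Real.log_lt_log (by norm_num) (by norm_num)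
    rw [Real.log_pow] at this
    push_cast at this ⊢
    linarith
  · have hd' : (2 : ℝ) ≤ d := by exact_mod_cast hd
    have h1 : Real.log (5 / 3) < Real.log 2 := Real.log_lt_log (by norm_num) (by norm_num)
    have e1 : ((d : ℝ) ^ 2 - 1) / (d : ℝ) ^ 2 * Real.log 2
        = ((d : ℝ) - 1) / d * (Real.log 2 + Real.log 2 / d) := by
      field_simp; ring
    rw [e1]
    apply mul_lt_mul_of_pos_left _ (div_pos (by linarith) (by linarith))
    have := div_lt_div_of_pos_right h1 (show (0 : ℝ) < d by linarith)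
    linarith

lemma gap_sub (d : ℕ) (hd : 2 ≤ d) : Set.Ioo (gapLeft d) (gapRight d) ⊆ I d := by
  have hd' : (2 : ℝ) ≤ d := by exact_mod_cast hd
  have hl : 0 < Real.log 2 := Real.log_pos (by norm_num)
  apply Set.Ioo_subset_Ioo
  · rw [gapLeft]
    split_ifs with h2
    · subst h2
      have : Real.log ((2 : ℝ) ^ 8) ≤ Real.log (11767 / 3) :=
        Real.log_le_log (by norm_num) (by norm_num)
      rw [Real.log_pow] at this
      push_cast at this ⊢
      linarith
    · apply mul_le_mul_of_nonneg_left _ (div_nonneg (by linarith) (by linarith))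
      have : 0 ≤ Real.log (5 / 3) / d := div_nonneg (Real.log_nonneg (by norm_num)) (by linarith)
      linarith
  · rw [gapRight]
    apply mul_le_mul_of_nonneg_right _ hl.le
    rw [div_le_iff₀ (by positivity)]
    nlinarith

lemma Irr_sub (d : ℕ) : entropySetIrr d ⊆ entropySet d := by
  rintro h ⟨k, M, h1, _, h3, h4⟩
  exact ⟨k, M, h1, h3, h4⟩

lemma not_closure (d : ℕ) (hd : 2 ≤ d) : ¬ (I d ⊆ closure (entropySet d)) := by
  intro hsub
  obtain ⟨x, hx⟩ := Set.nonempty_Ioo.2 (gap_lt d hd)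
  have hxc := hsub (gap_sub d hd hx)
  rw [mem_closure_iff] at hxc
  obtain ⟨y, hy1, hy2⟩ := hxc _ isOpen_Ioo hx
  rcases main d hd y hy2 with h | h
  · exact absurd hy1.1 (not_lt.2 h)
  · exact absurd hy1.2 (not_lt.2 h)

/-- For every `d ≥ 2` the nonempty open interval `(gapLeft d, gapRight d)` lies in `I_d` and
contains no entropy of a hom Markov tree-shift. So neither the set of entropies of hom Markov
tree-shifts nor its subset coming from irreducible matrices is dense in `I_d`. -/
theorem result (d : ℕ) (hd : 2 ≤ d) :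
    gapLeft d < gapRight d ∧ Set.Ioo (gapLeft d) (gapRight d) ⊆ I d ∧
    (∀ h ∈ entropySet d, h ∉ Set.Ioo (gapLeft d) (gapRight d)) ∧
    ¬ (I d ⊆ closure (entropySet d)) ∧ ¬ (I d ⊆ closure (entropySetIrr d)) := by
  refine ⟨gap_lt d hd, gap_sub d hd, ?_, not_closure d hd, ?_⟩
  · intro h hh hmem
    rcases main d hd h hh with h1 | h1
    · exact absurd hmem.1 (not_lt.2 h1)
    · exact absurd hmem.2 (not_lt.2 h1)
  · intro hsub
    exact not_closure d hd (hsub.trans (closure_mono (Irr_sub d)))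

end Pool.Agent.Results.MP_256cd6_an.NotDense
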